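import Pool.Agent.Helper74.BV.Four

/-!
# The Fraser-Schoen boundary volume inequality for four-dimensional submanifolds

For every free boundary stationary submanifold of dimension four in the unit ball of any Euclidean
space and every conformal automorphism of the ball, the boundary volume does not increase.
-/

open MeasureTheory Module
open scoped RealInnerProductSpace ContDiff

namespace Pool.Agent.Results.MP_68f9b1_gt.BoundaryVolumeFour

section

variable {E : Type*} [NormedAddCommGroup E] [InnerProductSpace ℝ E] [FiniteDimensional ℝ E]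

/-- The divergence at `x` of the vector field `X` along the linear subspace `T`: the trace of the
composition of the derivative of `X` with the orthogonal projection to `T`. -/
noncomputable def divAlong (T : Submodule ℝ E) (X : E → E) (x : E) : ℝ :=
  LinearMap.trace ℝ E ((T.starProjection : E →ₗ[ℝ] E) ∘ₗ (fderiv ℝ X x : E →ₗ[ℝ] E))

/-- Free boundary stationary data of dimension `k` in the closed unit ball of the Euclidean
space `E`.

`S` with the finite measure `μ` is the (weighted) submanifold with its `k`-dimensional volume,
`u : S → E` its position, `T p` its tangent space at `p`; `Γ` with the finite measure `σ` is its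
boundary with its `(k - 1)`-dimensional volume, `b : Γ → E` the position of the boundary, in the
unit sphere. The last field is the first variation identity of a minimal submanifold which meets the
unit sphere orthogonally (its outward unit conormal at a boundary point is the position vector):
`∫ div_T X = ∫ ⟪X, x⟫` for all smooth vector fields `X` on `E`. -/
structure IsFreeBoundaryStationary [MeasurableSpace E] (k : ℕ) {S Γ : Type*} [MeasurableSpace S]
    [MeasurableSpace Γ] (μ : Measure S) (u : S → E) (T : S → Submodule ℝ E)
    (σ : Measure Γ) (b : Γ → E) : Prop where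
  finite_interior : IsFiniteMeasure μ
  finite_boundary : IsFiniteMeasure σ
  aemeasurable_interior : AEMeasurable u μ
  aestronglyMeasurable_tangent : AEStronglyMeasurable (fun p => (T p).starProjection) μ
  aemeasurable_boundary : AEMeasurable b σ
  interior_mem : ∀ᵐ p ∂μ, ‖u p‖ ≤ 1
  finrank_tangent : ∀ᵐ p ∂μ, finrank ℝ (T p) = k
  boundary_mem : ∀ᵐ p ∂σ, ‖b p‖ = 1
  first_variation : ∀ X : E → E, ContDiff ℝ ∞ X →
    ∫ p, divAlong (T p) X (u p) ∂μ = ∫ p, ⟪X (b p), b p⟫ ∂σ

end

/-- **The Fraser-Schoen inequality in dimension four.** Let `(μ, u, T, σ, b)` be free boundary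
stationary data of dimension `4` in the unit ball of `ℝ ^ n` and let `‖y‖ > 1`. The conformal
automorphism of the ball with pole `y` has conformal factor `(‖y‖ ^ 2 - 1) / ‖x - y‖ ^ 2`, so the
integral on the left is the volume of the image of the boundary. In the case of equality almost
every tangent space contains the position vector and `y`. -/
theorem result {n : ℕ} {S Γ : Type*} [MeasurableSpace S] [MeasurableSpace Γ] {μ : Measure S}
    {u : S → EuclideanSpace ℝ (Fin n)} {T : S → Submodule ℝ (EuclideanSpace ℝ (Fin n))}
    {σ : Measure Γ} {b : Γ → EuclideanSpace ℝ (Fin n)}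
    (h : IsFreeBoundaryStationary 4 μ u T σ b) (y : EuclideanSpace ℝ (Fin n)) (hy : 1 < ‖y‖) :
    (∫ p, ((‖y‖ ^ 2 - 1) / ‖b p - y‖ ^ 2) ^ 3 ∂σ ≤ σ.real Set.univ) ∧
    (∫ p, ((‖y‖ ^ 2 - 1) / ‖b p - y‖ ^ 2) ^ 3 ∂σ = σ.real Set.univ →
      ∀ᵐ p ∂μ, u p ∈ T p ∧ y ∈ T p) :=
  Pool.Agent.Helper74.BV4.main
    (FBM.IsFreeBoundaryStationary.mk h.1 h.2 h.3 h.4 h.5 h.6 h.7 h.8 h.9) y hy

end Pool.Agent.Results.MP_68f9b1_gt.BoundaryVolumeFour
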