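import Pool.Agent.Helper19.QR.Upper
import Pool.Agent.Helper19.LB.Lower2

/-!
# The boundary volume under conformal maps of the ball, in every dimension

For free boundary stationary data of dimension `k ≥ 4` a conformal automorphism of the unit ball
does not increase the boundary volume if its pole is at distance at least `3 √k` from the centre,
and increases it at most by the factor `3 k ^ (1 / 4)` in any case. This order is exact: for
`k ≥ 160000`, in every codimension at least two, there are such data whose boundary volume is
increased at least by the factor `k ^ (1 / 4) / 120`.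
-/

open MeasureTheory Module
open scoped RealInnerProductSpace ContDiff

namespace Pool.Agent.Results.MP_68f9b1_gt.BoundaryVolumeOrder

universe u

section

variable {V : Type} [NormedAddCommGroup V] [InnerProductSpace ℝ V] [FiniteDimensional ℝ V]

/-- The divergence at `x` of the vector field `X` along the linear subspace `T`: the trace of the
composition of the derivative of `X` with the orthogonal projection to `T`. -/
noncomputable def divAlong (T : Submodule ℝ V) (X : V → V) (x : V) : ℝ :=
  LinearMap.trace ℝ V ((T.starProjection : V →ₗ[ℝ] V) ∘ₗ (fderiv ℝ X x : V →ₗ[ℝ] V))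

variable (V) in
/-- Free boundary stationary data of dimension `k` in the closed unit ball of the Euclidean
space `V`.

`S` with the finite measure `μ` is the (weighted) submanifold with its `k`-dimensional volume,
`u : S → V` its position, `T p` its tangent space at `p`; `Γ` with the finite measure `σ` is its
boundary with its `(k - 1)`-dimensional volume, `b : Γ → V` the position of the boundary, in the
unit sphere. The last field is the first variation identity of a minimal submanifold which meets the
unit sphere orthogonally: `∫ div_T X = ∫ ⟪X, x⟫` for all smooth vector fields `X` on `V`. -/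
structure StationaryData [MeasurableSpace V] (k : ℕ) where
  S : Type u
  Γ : Type u
  mS : MeasurableSpace S
  mΓ : MeasurableSpace Γ
  μ : Measure S
  u : S → V
  T : S → Submodule ℝ V
  σ : Measure Γ
  b : Γ → V
  finite_interior : IsFiniteMeasure μ
  finite_boundary : IsFiniteMeasure σ
  aemeasurable_interior : AEMeasurable u μ
  aestronglyMeasurable_tangent : AEStronglyMeasurable (fun p => (T p).starProjection) μ
  aemeasurable_boundary : AEMeasurable b σ
  interior_mem : ∀ᵐ p ∂μ, ‖u p‖ ≤ 1
  finrank_tangent : ∀ᵐ p ∂μ, finrank ℝ (T p) = k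
  boundary_mem : ∀ᵐ p ∂σ, ‖b p‖ = 1
  first_variation : ∀ X : V → V, ContDiff ℝ ∞ X →
    ∫ p, divAlong (T p) X (u p) ∂μ = ∫ p, ⟪X (b p), b p⟫ ∂σ

variable [MeasurableSpace V] {k : ℕ}

/-- The volume of the boundary. -/
noncomputable def StationaryData.boundary (D : StationaryData.{u} V k) : ℝ :=
  letI := D.mΓ
  D.σ.real Set.univ

/-- The volume of the image of the boundary, of dimension `k - 1`, under the conformal automorphism
of the ball with pole `y`, whose conformal factor on the unit sphere is
`(‖y‖ ^ 2 - 1) / ‖x - y‖ ^ 2`. -/
noncomputable def StationaryData.image (D : StationaryData.{u} V k) (y : V) : ℝ :=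
  letI := D.mΓ
  ∫ p, ((‖y‖ ^ 2 - 1) / ‖D.b p - y‖ ^ 2) ^ (k - 1) ∂D.σ

end

/-- The Euclidean space of dimension `n`. -/
abbrev E (n : ℕ) := EuclideanSpace ℝ (Fin n)

/-- (1) For all free boundary stationary data of dimension `k ≥ 4` and all `y` with `‖y‖ > 1` the
volume of the image of the boundary is at most `3 k ^ (1 / 4)` times the volume of the boundary,
and at most the volume of the boundary if `‖y‖ ≥ 3 √k`.

(2) For all `k ≥ 160000` and `n ≥ k + 2` there are such data with nonzero boundary and such a `y`
for which the volume of the image of the boundary is at least `k ^ (1 / 4) / 120` times the volume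
of the boundary. -/
theorem result :
    (∀ (n k : ℕ) (D : StationaryData.{u} (E n) k) (y : E n), 4 ≤ k → 1 < ‖y‖ →
      D.image y ≤ 3 * (k : ℝ) ^ (1 / 4 : ℝ) * D.boundary ∧
      (3 * √(k : ℝ) ≤ ‖y‖ → D.image y ≤ D.boundary)) ∧
    ∀ n k : ℕ, 160000 ≤ k → k + 2 ≤ n →
      ∃ (D : StationaryData.{0} (E n) k) (y : E n), 1 < ‖y‖ ∧ 0 < D.boundary ∧
        (k : ℝ) ^ (1 / 4 : ℝ) / 120 * D.boundary ≤ D.image y := by
  refine ⟨fun n k D y hk hy => ?_, fun n k hk hn => ?_⟩
  · let := D.mS
    let := D.mΓ
    have h' : FBM.IsFreeBoundaryStationary k D.μ D.u D.T D.σ D.b := ⟨D.finite_interior,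
      D.finite_boundary, D.aemeasurable_interior, D.aestronglyMeasurable_tangent,
      D.aemeasurable_boundary, D.interior_mem, D.finrank_tangent, D.boundary_mem,
      D.first_variation⟩
    exact ⟨Pool.Agent.Helper19.QRU.upper_all hk h' y hy,
      fun hs => Pool.Agent.Helper19.QRU.upper_far hk h' y hy hs⟩
  · obtain ⟨μ, T, σ, y, h, h2⟩ := Pool.Agent.Helper19.LB2.lower (n := n) hk hn
    exact ⟨⟨E n × (Fin k → E n), E n, inferInstance, inferInstance, μ, Prod.fst, T, σ, id,
      h.1, h.2, h.3, h.4, h.5, h.6, h.7, h.8, h.9⟩, y, h2⟩

end Pool.Agent.Results.MP_68f9b1_gt.BoundaryVolumeOrder
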